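import Mathlib
import Pool.Agent.TH978.LNCMain

/-!
In every dimension `d`, a compact connected set in `ℝ^d` is starshaped if and only if any `d + 1` of
its points of local non-convexity are clearly visible from a common point of the set.
-/

open Set Metric Pool.Agent.TH978.LNC

namespace Pool.Agent.Results.MP_ad2f8c_co.LNCStarshaped

/-- For every `d`, every compact connected set `E` in `ℝ^d` with property `C_{d+1}` (any `d + 1`
locally non-convex points of `E` are clearly visible from a common point of `E`) is starshaped, and
conversely. -/
theorem result (d : ℕ) (E : Set (EuclideanSpace ℝ (Fin d))) (hcomp : IsCompact E)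
    (hconn : IsConnected E) : PropC E (d + 1) ↔ Starshaped E := by
  refine ⟨fun h => ?_, fun h => propC_of_starshaped h _⟩
  apply starshaped_of_propC hcomp hconn
  rwa [finrank_euclideanSpace_fin]

end Pool.Agent.Results.MP_ad2f8c_co.LNCStarshaped
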